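import Mathlib
import Pool.Agent.H17.Markoff3

set_option autoImplicit false

namespace Pool.Agent.Results.MP_208885_nt.InfMany

def O (m : ℤ) : Set (ℤ × ℤ × ℤ) :=
  {t | 0 < t.1 ∧ 0 < t.2.1 ∧ 0 < t.2.2 ∧
    t.1 ^ 2 + t.2.1 ^ 2 + t.2.2 ^ 2 = 3 * t.1 * t.2.1 * t.2.2 + m ∧
    t.1 ≤ t.2.1 ∧ t.2.1 ≤ t.2.2 ∧ 3 * t.1 * t.2.1 - t.2.2 ≤ 0}

theorem result :
    {m : ℤ | 1 < m ∧ (O m).Nonempty ∧ (O m).Finite ∧ (O m).ncard % 3 = 0}.Infinite := by
  let c : ℕ × ℕ × ℕ → ℤ × ℤ × ℤ := fun t => (t.1, t.2.1, t.2.2)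
  have hc : Function.Injective c := by
    rintro ⟨x, y, z⟩ ⟨x', y', z'⟩ h
    simpa [c] using h
  have key : ∀ m : ℕ, O m = c '' Pool.Agent.H17.Markoff3.O m := by
    intro m
    ext ⟨x, y, z⟩
    constructor
    · rintro ⟨h1, h2, h3, h4, h5, h6, h7⟩
      simp only at h1 h2 h3 h4 h5 h6 h7
      lift x to ℕ using h1.le
      lift y to ℕ using h2.le
      lift z to ℕ using h3.le
      refine ⟨(x, y, z), ⟨by simp only; omega, by simp only; omega, by simp only; omega,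
        by simp only; exact_mod_cast h4, ?_⟩, rfl⟩
      have : 3 * (x : ℤ) * y ≤ z := by linarith
      simp only
      exact_mod_cast this
    · rintro ⟨⟨a, b, d⟩, ⟨h1, h2, h3, h4, h5⟩, h⟩
      simp only at h1 h2 h3 h4 h5
      rw [← h]
      have h6 : 3 * (a : ℤ) * b ≤ d := by exact_mod_cast h5
      exact ⟨by simp only [c]; omega, by simp only [c]; omega, by simp only [c]; omega,
        by simp only [c]; exact_mod_cast h4, by simp only [c]; omega, by simp only [c]; omega,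
        by simp only [c]; linarith⟩
  refine (Pool.Agent.H17.Markoff3.main.image (f := fun m : ℕ => (m : ℤ))
    (fun a _ b _ h => by simpa using h)).mono ?_
  rintro _ ⟨m, ⟨h1, h2, h3, h4⟩, rfl⟩
  simp only [Set.mem_ofPred_eq, key]
  exact ⟨by omega, h2.image _, h3.image _, by rwa [Set.ncard_image_of_injective _ hc]⟩

end Pool.Agent.Results.MP_208885_nt.InfMany
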